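import Pool.Agent.Helper49.LC.St
import Pool.Agent.Helper14.LK.Basic

/-!
# Project LC (MP_58b586_gt), module HFL: the flow of a compactly supported Hamiltonian
-/

set_option autoImplicit false

open Set Filter
open scoped ContDiff Topology

namespace Pool.Agent.Helper34.LC

open Pool.Agent.Helper14.LK Pool.Agent.Helper49.LC

variable {E : Type} [NormedAddCommGroup E] [NormedSpace ℝ E]

private theorem hfl_symm2 {X Y : Type} [NormedAddCommGroup X] [NormedSpace ℝ X]
    [NormedAddCommGroup Y] [NormedSpace ℝ Y] {g : X → Y} (hg : ContDiff ℝ ∞ g) (x u v : X) :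
    fderiv ℝ (fderiv ℝ g) x u v = fderiv ℝ (fderiv ℝ g) x v u := by
  have h : IsSymmSndFDerivAt ℝ g x := by
    apply ContDiffAt.isSymmSndFDerivAt (n := 2)
      ((hg.of_le (WithTop.coe_le_coe.2 (le_top : (2 : ℕ∞) ≤ ⊤))).contDiffAt)
    simp
  exact h.eq u v

private theorem hfl_hasF {X Y : Type} [NormedAddCommGroup X] [NormedSpace ℝ X]
    [NormedAddCommGroup Y] [NormedSpace ℝ Y] {g : X → Y} (hg : ContDiff ℝ ∞ g) (x : X) :
    HasFDerivAt g (fderiv ℝ g x) x :=
  (hg.differentiable (by simp) x).hasFDerivAt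

private theorem hfl_smoothD {X Y : Type} [NormedAddCommGroup X] [NormedSpace ℝ X]
    [NormedAddCommGroup Y] [NormedSpace ℝ Y] {g : X → Y} (hg : ContDiff ℝ ∞ g) :
    ContDiff ℝ ∞ (fderiv ℝ g) :=
  hg.fderiv_right (by simp)

/-- exchange of derivatives for a flow -/
private theorem hfl_flow_deriv {V G : ℝ → E → E} (hV : ContDiff ℝ ∞ (Function.uncurry V))
    (hG : ContDiff ℝ ∞ (Function.uncurry G))
    (hf : ∀ t w, HasDerivAt (fun s => G s w) (V t (G t w)) t) (t : ℝ) (w a : E) :
    HasDerivAt (fun s => fderiv ℝ (G s) w a) (fderiv ℝ (V t) (G t w) (fderiv ℝ (G t) w a)) t := by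
  set g : ℝ × E → E := Function.uncurry G with hg
  have e1 : ∀ s (x : E), fderiv ℝ g (s, x) (1, 0) = V s (G s x) := by
    intro s x
    have h1 : HasDerivAt (fun r : ℝ => ((r, x) : ℝ × E)) (1, 0) s :=
      (hasDerivAt_id s).prodMk (hasDerivAt_const s x)
    have h2 := HasFDerivAt.comp_hasDerivAt s (hfl_hasF hG (s, x)) h1
    exact h2.unique (hf s x)
  have e2 : ∀ s (x u : E), fderiv ℝ g (s, x) (0, u) = fderiv ℝ (G s) x u := by
    intro s x u
    have h1 : HasFDerivAt (fun y : E => ((s, y) : ℝ × E)) (ContinuousLinearMap.inr ℝ ℝ E) x :=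
      hasFDerivAt_prodMk_right s x
    have h2 : HasFDerivAt (fun y => g (s, y))
        ((fderiv ℝ g (s, x)).comp (ContinuousLinearMap.inr ℝ ℝ E)) x :=
      (hfl_hasF hG (s, x)).comp x h1
    have h3 : fderiv ℝ (G s) x = (fderiv ℝ g (s, x)).comp (ContinuousLinearMap.inr ℝ ℝ E) :=
      h2.fderiv
    rw [h3]
    rfl
  have hD := hfl_smoothD hG
  have e3 : HasDerivAt (fun s => fderiv ℝ g (s, w) (0, a))
      (fderiv ℝ (fderiv ℝ g) (t, w) (1, 0) (0, a)) t := by
    have h1 : HasDerivAt (fun r : ℝ => ((r, w) : ℝ × E)) (1, 0) t :=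
      (hasDerivAt_id t).prodMk (hasDerivAt_const t w)
    have h2 := HasFDerivAt.comp_hasDerivAt t (hfl_hasF hD (t, w)) h1
    have h3 := h2.clm_apply (hasDerivAt_const t ((0, a) : ℝ × E))
    simpa using h3
  have e4 : fderiv ℝ (fderiv ℝ g) (t, w) (0, a) (1, 0)
      = fderiv ℝ (V t) (G t w) (fderiv ℝ (G t) w a) := by
    have h1 : HasFDerivAt (fun y : E => ((t, y) : ℝ × E)) (ContinuousLinearMap.inr ℝ ℝ E) w :=
      hasFDerivAt_prodMk_right t w
    have h2 : HasFDerivAt (fun y => fderiv ℝ g (t, y))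
        ((fderiv ℝ (fderiv ℝ g) (t, w)).comp (ContinuousLinearMap.inr ℝ ℝ E)) w :=
      (hfl_hasF hD (t, w)).comp w h1
    have h3 : HasFDerivAt (fun y => fderiv ℝ g (t, y) (1, 0)) _ w :=
      h2.clm_apply (hasFDerivAt_const ((1, 0) : ℝ × E) w)
    have h4 : HasFDerivAt (fun y => V t (G t y))
        ((fderiv ℝ (V t) (G t w)).comp (fderiv ℝ (G t) w)) w := by
      have hVt : ContDiff ℝ ∞ (V t) := by
        have := hV.comp ((contDiff_const (c := t)).prodMk (contDiff_id (𝕜 := ℝ) (E := E)))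
        exact this
      have hGt : ContDiff ℝ ∞ (G t) := by
        have := hG.comp ((contDiff_const (c := t)).prodMk (contDiff_id (𝕜 := ℝ) (E := E)))
        exact this
      exact (hfl_hasF hVt (G t w)).comp w (hfl_hasF hGt w)
    have h5 : (fun y => fderiv ℝ g (t, y) (1, 0)) = fun y => V t (G t y) :=
      funext fun y => e1 t y
    rw [h5] at h3
    have h6 := congrArg (fun L : E →L[ℝ] E => L a) (h3.unique h4)
    simpa using h6
  rw [hfl_symm2 hG, e4] at e3
  have e5 : (fun s => fderiv ℝ g (s, w) (0, a)) = fun s => fderiv ℝ (G s) w a :=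
    funext fun s => e2 s w a
  rw [e5] at e3
  exact e3

private theorem hfl_om_deriv {n : ℕ} {x y : ℝ → WW n} {x' y' : WW n} {t : ℝ}
    (hx : HasDerivAt x x' t) (hy : HasDerivAt y y' t) :
    HasDerivAt (fun s => om (x s) (y s)) (om x' (y t) + om (x t) y') t := by
  have h1 : HasDerivAt (fun s => omL n (x s)) (omL n x') t :=
    (omL n).hasFDerivAt.comp_hasDerivAt t hx
  have h2 := h1.clm_apply hy
  simpa using h2

theorem hHFL (hFLO : StFLO) : StHFL := by
  intro n H X r hH hX hXc hXH hXr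
  obtain ⟨K, hK⟩ := ContDiff.lipschitzWith_of_hasCompactSupport hXc hX (by simp)
  obtain ⟨Φ, Φi, hΦ, hΦi, h0, hode, hr, hl⟩ := hFLO (WW n) X hX ⟨K, hK⟩
  have hXt : ∀ t, ContDiff ℝ ∞ (X t) := fun t =>
    hX.comp ((contDiff_const (c := t)).prodMk (contDiff_id (𝕜 := ℝ) (E := WW n)))
  have hHt : ∀ t, ContDiff ℝ ∞ (H t) := fun t =>
    hH.comp ((contDiff_const (c := t)).prodMk (contDiff_id (𝕜 := ℝ) (E := WW n)))
  refine ⟨Φ, Φi, hΦ, hΦi, fun t w => hl t w, fun t w => hr t w, ?_, h0, ?_, hode⟩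
  · intro t w a b
    have key : ∀ (t : ℝ) (x p q : WW n),
        om (fderiv ℝ (X t) x p) q = fderiv ℝ (fderiv ℝ (H t)) x p q := by
      intro t x p q
      have e : (fun y => omL n (X t y)) = fderiv ℝ (H t) := by
        funext y
        apply ContinuousLinearMap.ext
        intro b
        rw [omL_apply]
        exact hXH t y b
      have h1 : HasFDerivAt (fun y => omL n (X t y)) ((omL n).comp (fderiv ℝ (X t) x)) x :=
        (omL n).hasFDerivAt.comp x (hfl_hasF (hXt t) x)
      rw [e] at h1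
      rw [h1.fderiv, ContinuousLinearMap.comp_apply, omL_apply]
    have hQd : ∀ s, HasDerivAt (fun s => om (fderiv ℝ (Φ s) w a) (fderiv ℝ (Φ s) w b)) 0 s := by
      intro s
      have hp := hfl_flow_deriv hX hΦ hode s w a
      have hq := hfl_flow_deriv hX hΦ hode s w b
      have h := hfl_om_deriv hp hq
      have hz : om (fderiv ℝ (X s) (Φ s w) (fderiv ℝ (Φ s) w a)) (fderiv ℝ (Φ s) w b) +
          om (fderiv ℝ (Φ s) w a) (fderiv ℝ (X s) (Φ s w) (fderiv ℝ (Φ s) w b)) = 0 := by
        rw [om_antisymm (fderiv ℝ (Φ s) w a), key, key, hfl_symm2 (hHt s)]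
        ring
      rw [hz] at h
      exact h
    have hconst := is_const_of_deriv_eq_zero
      (f := fun s => om (fderiv ℝ (Φ s) w a) (fderiv ℝ (Φ s) w b))
      (fun s => (hQd s).differentiableAt) (fun s => (hQd s).deriv) t 0
    have hid : Φ 0 = id := funext h0
    have h00 : om (fderiv ℝ (Φ 0) w a) (fderiv ℝ (Φ 0) w b) = om a b := by
      rw [hid, fderiv_id]
      rfl
    exact hconst.trans h00
  · intro t w hw
    have hlip : ∀ s, LipschitzWith K (X s) := by
      intro s
      have h1 := hK.comp (LipschitzWith.prodMk_left (β := WW n) s)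
      rw [mul_one] at h1
      exact h1
    have hc : (fun s => Φ s w) = fun _ => w := by
      refine ODE_solution_unique_univ (v := X) (s := fun _ => Set.univ) (K := K) (t₀ := 0)
        (fun s => (hlip s).lipschitzOnWith) (fun s => ⟨hode s w, Set.mem_univ _⟩)
        (fun s => ⟨?_, Set.mem_univ _⟩) (h0 w)
      rw [hXr s w hw]
      exact hasDerivAt_const s w
    exact congrFun hc t

end Pool.Agent.Helper34.LC
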